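import Mathlib
import Pool.Agent.TH118.SG.Pair

/-!
# The operators acting by scalars on all semi-invariant multilinear forms
-/

set_option linter.unusedSectionVars false

namespace Pool.Agent.K1H13.D4

open Module Finset Function Pool.Agent.TH125.Gal Pool.Agent.TH118.SG

section form

variable {K : Type} [Field K] {R : Type} [AddCommGroup R] [Module K R] {Γ : Type} [Group Γ]

/-- The form `φ` is multiplied by the power `χ ^ k` by the elements of a subgroup of finite
index. -/
def Semi {S : Type} (ρ : Γ →* (R →ₗ[K] R)) (χ : Γ →* Kˣ) (k : ℤ)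
    (φ : MultilinearMap K (fun _ : S => R) K) : Prop :=
  ∃ Δ : Subgroup Γ, Δ.FiniteIndex ∧
    ∀ g ∈ Δ, ∀ v, φ (fun j => ρ g (v j)) = ((χ g ^ k : Kˣ) : K) * φ v

/-- The operator `Y` acts on the form `φ` by the scalar `a`. -/
def Mul {S : Type} [Fintype S] [DecidableEq S] (Y : End K R) (a : K)
    (φ : MultilinearMap K (fun _ : S => R) K) : Prop :=
  ∀ v : S → R, ∑ j, φ (update v j (Y (v j))) = a * φ v

theorem mul_mul {S : Type} [Fintype S] [DecidableEq S] {X Y : End K R} {a b : K}
    {φ : MultilinearMap K (fun _ : S => R) K} (hX : Mul X a φ) (hY : Mul Y b φ) (v : S → R) :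
    ∑ i, (φ (update v i (X (Y (v i)))) +
      ∑ j ∈ univ.erase i, φ (update (update v i (Y (v i))) j (X (v j)))) = a * (b * φ v) := by
  rw [← hY v, Finset.mul_sum]
  refine Finset.sum_congr rfl fun i _ => ?_
  have h1 := hX (update v i (Y (v i)))
  rw [← Finset.add_sum_erase _ _ (Finset.mem_univ i), update_self, update_idem] at h1
  rw [← h1]
  congr 1
  refine Finset.sum_congr rfl fun j hj => ?_
  rw [update_of_ne (Finset.ne_of_mem_erase hj)]

theorem mul_bracket {S : Type} [Fintype S] [DecidableEq S] {X Y : End K R} {a b : K}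
    {φ : MultilinearMap K (fun _ : S => R) K} (hX : Mul X a φ) (hY : Mul Y b φ) :
    Mul (X * Y - Y * X) 0 φ := by
  intro v
  have h1 := mul_mul hX hY v
  have h2 := mul_mul hY hX v
  rw [Finset.sum_add_distrib] at h1 h2
  have h3 : ∑ i, ∑ j ∈ univ.erase i, φ (update (update v i (Y (v i))) j (X (v j))) =
      ∑ i, ∑ j ∈ univ.erase i, φ (update (update v i (X (v i))) j (Y (v j))) := by
    rw [Finset.sum_comm' (s' := fun j => univ.erase j) (t' := univ) (by
      intro x y
      simp only [Finset.mem_univ, Finset.mem_erase, ne_eq, and_true, true_and]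
      exact ⟨fun h h' => h h'.symm, fun h h' => h h'.symm⟩)]
    refine Finset.sum_congr rfl fun j _ => Finset.sum_congr rfl fun i hi => ?_
    rw [update_comm (Finset.ne_of_mem_erase hi)]
  have h4 : ∀ j, φ (update v j ((X * Y - Y * X) (v j))) = φ (update v j (X (Y (v j)))) -
      φ (update v j (Y (X (v j)))) := by
    intro j
    rw [LinearMap.sub_apply, MultilinearMap.map_update_sub]
    rfl
  rw [Finset.sum_congr rfl fun j _ => h4 j, Finset.sum_sub_distrib]
  rw [h3] at h1
  linear_combination h1 - h2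

/-- The pairs `(Y, c)` such that `Y` acts by the scalar `k c` on the semi-invariant forms of
weight `k`. -/
def LieP (ρ : Γ →* (R →ₗ[K] R)) (χ : Γ →* Kˣ) : Submodule K (End K R × K) where
  carrier := {p | ∀ (S : Type) [Fintype S] [DecidableEq S]
    (φ : MultilinearMap K (fun _ : S => R) K) (k : ℤ), Semi ρ χ k φ → Mul p.1 (k * p.2) φ}
  zero_mem' := by
    intro S _ _ φ k _ v
    change _ = (k * 0 : K) * φ v
    rw [mul_zero, zero_mul]
    refine Finset.sum_eq_zero fun j _ => ?_
    exact φ.map_coord_zero j (update_self _ _ _)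
  add_mem' := by
    rintro ⟨X, c⟩ ⟨Y, d⟩ hX hY S _ _ φ k hφ v
    have h1 := hX S φ k hφ v
    have h2 := hY S φ k hφ v
    change ∑ j, φ (update v j ((X + Y) (v j))) = (k * (c + d)) * φ v
    simp only [LinearMap.add_apply, MultilinearMap.map_update_add, Finset.sum_add_distrib]
    linear_combination h1 + h2
  smul_mem' := by
    rintro a ⟨X, c⟩ hX S _ _ φ k hφ v
    have h1 := hX S φ k hφ v
    change ∑ j, φ (update v j ((a • X) (v j))) = (k * (a * c)) * φ v
    simp only [LinearMap.smul_apply, MultilinearMap.map_update_smul]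
    rw [← Finset.smul_sum, smul_eq_mul]
    linear_combination a * h1

/-- The operators which kill all semi-invariant forms. -/
def Lie (ρ : Γ →* (R →ₗ[K] R)) (χ : Γ →* Kˣ) : Submodule K (End K R) :=
  (LieP ρ χ).comap (LinearMap.inl K (End K R) K)

variable {ρ : Γ →* (R →ₗ[K] R)} {χ : Γ →* Kˣ}

theorem mem_Lie {Y : End K R} : Y ∈ Lie ρ χ ↔ (Y, (0 : K)) ∈ LieP ρ χ := Iff.rfl

theorem Lie_mul {Y : End K R} (hY : Y ∈ Lie ρ χ) {S : Type} [Fintype S] [DecidableEq S]
    {φ : MultilinearMap K (fun _ : S => R) K} {k : ℤ} (hφ : Semi ρ χ k φ) : Mul Y 0 φ := by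
  have h1 := hY S φ k hφ
  change Mul Y (k * 0) φ at h1
  rwa [mul_zero] at h1

theorem mem_Lie_of {Y : End K R} (h : ∀ (S : Type) [Fintype S] [DecidableEq S]
    (φ : MultilinearMap K (fun _ : S => R) K) (k : ℤ), Semi ρ χ k φ → Mul Y 0 φ) :
    Y ∈ Lie ρ χ := by
  intro S _ _ φ k hφ
  change Mul Y (k * 0) φ
  rw [mul_zero]
  exact h S φ k hφ

theorem LieP_bracket {p q : End K R × K} (hp : p ∈ LieP ρ χ) (hq : q ∈ LieP ρ χ) :
    p.1 * q.1 - q.1 * p.1 ∈ Lie ρ χ := by
  apply mem_Lie_of
  intro S _ _ φ k hφ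
  exact mul_bracket (hp S φ k hφ) (hq S φ k hφ)

theorem Lie_bracket {X Y : End K R} (hX : X ∈ Lie ρ χ) (hY : Y ∈ Lie ρ χ) :
    X * Y - Y * X ∈ Lie ρ χ :=
  LieP_bracket (p := (X, 0)) (q := (Y, 0)) hX hY

theorem rr (γ : Γ) (x : R) : ρ γ (ρ γ⁻¹ x) = x := by
  rw [← Module.End.mul_apply, ← map_mul, mul_inv_cancel, map_one]
  rfl

theorem rr' (γ : Γ) (x : R) : ρ γ⁻¹ (ρ γ x) = x := by
  rw [← Module.End.mul_apply, ← map_mul, inv_mul_cancel, map_one]
  rfl

theorem rmul (γ : Γ) : ρ γ * ρ γ⁻¹ = 1 := by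
  rw [← map_mul, mul_inv_cancel, map_one]

theorem rmul' (γ : Γ) : ρ γ⁻¹ * ρ γ = 1 := by
  rw [← map_mul, inv_mul_cancel, map_one]

theorem semi_twist {S : Type} {φ : MultilinearMap K (fun _ : S => R) K} {k : ℤ}
    (hφ : Semi ρ χ k φ) (γ : Γ) : Semi ρ χ k (φ.compLinearMap fun _ => ρ γ) := by
  obtain ⟨Δ, hΔ, h1⟩ := hφ
  refine ⟨Δ.comap (MulAut.conj γ).toMonoidHom, ?_, fun g hg v => ?_⟩
  · exact ⟨by
      rw [Subgroup.index_comap_of_surjective]
      · exact hΔ.index_ne_zero
      · exact (MulAut.conj γ).surjective⟩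
  · have hg' : γ * g * γ⁻¹ ∈ Δ := hg
    have h2 := h1 _ hg' (fun j => ρ γ (v j))
    change φ (fun j => ρ γ (ρ g (v j))) = _ * φ (fun j => ρ γ (v j))
    have h3 : (fun j => ρ γ (ρ g (v j))) = fun j => ρ (γ * g * γ⁻¹) (ρ γ (v j)) := by
      funext j
      rw [← Module.End.mul_apply, ← Module.End.mul_apply, ← map_mul, ← map_mul,
        inv_mul_cancel_right]
    have h4 : χ (γ * g * γ⁻¹) = χ g := by
      rw [map_mul, map_mul, mul_right_comm, ← map_mul, mul_inv_cancel, map_one, one_mul]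
    rw [h3, h2, h4]

theorem LieP_conj {p : End K R × K} (hp : p ∈ LieP ρ χ) (γ : Γ) :
    (ρ γ * p.1 * ρ γ⁻¹, p.2) ∈ LieP ρ χ := by
  intro S _ _ φ k hφ v
  have h1 := hp S _ k (semi_twist hφ γ) (fun j => ρ γ⁻¹ (v j))
  have e1 : ∀ w : S → R, (φ.compLinearMap fun _ => ρ γ) w = φ fun j => ρ γ (w j) := fun _ => rfl
  simp only [e1, rr] at h1
  change _ = (k * p.2) * φ v
  rw [← h1]
  refine Finset.sum_congr rfl fun j _ => ?_
  congr 1
  funext i
  by_cases hi : i = j
  · subst hi
    rw [update_self, update_self]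
    rfl
  · rw [update_of_ne hi, update_of_ne hi, rr]

theorem Lie_conj {Y : End K R} (hY : Y ∈ Lie ρ χ) (γ : Γ) : ρ γ * Y * ρ γ⁻¹ ∈ Lie ρ χ :=
  LieP_conj (p := (Y, 0)) hY γ

/-- The semi-invariant bilinear forms separate the vectors. -/
def Sep (ρ : Γ →* (R →ₗ[K] R)) (χ : Γ →* Kˣ) : Prop :=
  ∀ x : R, (∀ (B : R →ₗ[K] R →ₗ[K] K) (k : ℤ), Semi ρ χ k (bm B) → ∀ y, B x y = 0) → x = 0

theorem mul_bm {B : R →ₗ[K] R →ₗ[K] K} {Y : End K R} {a : K} (h : Mul Y a (bm B)) (x y : R) :
    B (Y x) y + B x (Y y) = a * B x y := by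
  have h1 := h ![x, y]
  rw [Fin.sum_univ_two] at h1
  simpa [bm] using h1

/-- The operators commute with the equivariant endomorphisms. -/
theorem LieP_comm (hsep : Sep ρ χ) {p : End K R} {Δ : Subgroup Γ} (hΔ : Δ.FiniteIndex)
    (hp : ∀ g ∈ Δ, ∀ x, p (ρ g x) = ρ g (p x)) {q : End K R × K} (hq : q ∈ LieP ρ χ) (x : R) :
    p (q.1 x) = q.1 (p x) := by
  rw [← sub_eq_zero]
  refine hsep _ fun B k hB y => ?_
  have hB' : Semi ρ χ k (bm (B.comp p)) := by
    obtain ⟨Δ', hΔ', h1⟩ := hB
    refine ⟨Δ ⊓ Δ', inferInstance, fun g hg v => ?_⟩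
    change B (p (ρ g (v 0))) (ρ g (v 1)) = _ * B (p (v 0)) (v 1)
    rw [hp g hg.1]
    exact h1 g hg.2 ![p (v 0), v 1]
  have h1 := mul_bm (hq _ _ k hB) (p x) y
  have h2 := mul_bm (hq _ _ k hB') x y
  simp only [LinearMap.comp_apply] at h2
  rw [map_sub, LinearMap.sub_apply]
  linear_combination h2 - h1

end form

section slope

variable {K : Type} [Field K] [CharZero K] [IsAlgClosed K] {R : Type} [AddCommGroup R]
  [Module K R] [FiniteDimensional K R] {Γ : Type} [Group Γ] {ρ : Γ →* (R →ₗ[K] R)}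
  {χ : Γ →* Kˣ}

theorem ext0_zpow (θ : Additive Kˣ →+ K) (a : Kˣ) (k : ℤ) :
    ext0 θ ((a ^ k : Kˣ) : K) = k * ext0 θ (a : K) := by
  rw [ext0_ne θ (Units.ne_zero _), ext0_ne θ (Units.ne_zero _)]
  have h1 : Units.mk0 ((a ^ k : Kˣ) : K) (Units.ne_zero _) = a ^ k := Units.ext rfl
  have h2 : Units.mk0 (a : K) (Units.ne_zero _) = a := Units.ext rfl
  rw [h1, h2, ofMul_zpow, map_zsmul, zsmul_eq_mul]

theorem scalar_gen {a β z : K} (hz : z ∈ Module.End.maxGenEigenspace (a • (1 : End K K)) β)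
    (hz0 : z ≠ 0) : a = β := by
  obtain ⟨n, hn⟩ := mem_gen.1 hz
  have h3 : ∀ n : ℕ, ((a • (1 : End K K) - algebraMap K (End K K) β) ^ n) z =
      (a - β) ^ n * z := by
    intro n
    induction n with
    | zero => simp
    | succ n ih =>
      rw [pow_succ', Module.End.mul_apply, ih, LinearMap.sub_apply, LinearMap.smul_apply,
        Module.End.one_apply, Module.algebraMap_end_apply, smul_eq_mul, smul_eq_mul]
      ring
  rw [h3] at hn
  have h4 := (mul_eq_zero.1 hn).resolve_right hz0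
  exact sub_eq_zero.1 (eq_zero_of_pow_eq_zero h4)

/-- The operator attached to an element of the group and an additive function. -/
theorem exists_slope (γ : Γ) (θ : Additive Kˣ →+ K) : ∃ Y : End K R,
    (∀ β, ∀ x ∈ Module.End.maxGenEigenspace (ρ γ) β, Y x = ext0 θ β • x) ∧
      (Y, ext0 θ (χ γ : K)) ∈ LieP ρ χ := by
  have hinj : Function.Injective (ρ γ) := by
    intro x y hxy
    have h1 := congrArg (ρ γ⁻¹) hxy
    rwa [rr', rr'] at h1
  obtain ⟨Y, hY⟩ := exists_op (ρ γ) (ext0 θ)
  refine ⟨Y, hY, ?_⟩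
  intro S _ _ φ k hφ v
  obtain ⟨Δ, hΔ, h1⟩ := hφ
  obtain ⟨M, hM, hγM⟩ := exists_pow hΔ γ
  have h2 := deriv_op θ (ρ γ) hinj (((χ γ ^ k : Kˣ) : K) • (1 : End K K)) hY
    (Y' := ext0 θ ((χ γ ^ k : Kˣ) : K) • (1 : End K K)) (fun β z hz => ?_) (h := φ) hM
    (fun v => ?_) v
  · change _ = (k * ext0 θ (χ γ : K)) * φ v
    rw [← ext0_zpow]
    exact h2
  · by_cases hz0 : z = 0
    · rw [hz0, map_zero, smul_zero]
    · rw [← scalar_gen hz hz0, LinearMap.smul_apply, Module.End.one_apply]
  · have h3 := h1 _ hγM v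
    rw [map_pow, map_pow] at h3
    rw [h3, smul_pow, one_pow, LinearMap.smul_apply, Module.End.one_apply, smul_eq_mul]
    congr 1
    push_cast
    rw [← zpow_natCast, ← zpow_natCast, ← zpow_mul, ← zpow_mul, mul_comm]

/-- Forms killed by an operator vanish on generalized eigenvectors whose eigenvalues do not add up
to zero. -/
theorem vanish {S : Type} [Fintype S] [DecidableEq S] {Y : End K R}
    {φ : MultilinearMap K (fun _ : S => R) K} (hφ : Mul Y 0 φ) (μ : S → K)
    (hμ : ∑ j, μ j ≠ 0) : ∀ (N : ℕ) (n : S → ℕ) (v : S → R), ∑ j, n j = N →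
      (∀ j, ((Y - algebraMap K (End K R) (μ j)) ^ n j) (v j) = 0) → φ v = 0 := by
  intro N
  induction N with
  | zero =>
    intro n v hn hv
    have h1 : ∃ j : S, True := by
      by_contra hcon
      push Not at hcon
      apply hμ
      exact Finset.sum_eq_zero fun j _ => (hcon j).elim
    obtain ⟨j, -⟩ := h1
    have h2 : n j = 0 := (Finset.sum_eq_zero_iff.1 hn) j (Finset.mem_univ _)
    have h3 := hv j
    rw [h2, pow_zero, Module.End.one_apply] at h3
    exact φ.map_coord_zero j h3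
  | succ N ih =>
    intro n v hn hv
    by_cases h0 : ∃ j, n j = 0
    · obtain ⟨j, hj⟩ := h0
      have h3 := hv j
      rw [hj, pow_zero, Module.End.one_apply] at h3
      exact φ.map_coord_zero j h3
    push Not at h0
    have h1 := hφ v
    rw [zero_mul] at h1
    have h2 : ∀ j, φ (update v j (Y (v j))) = μ j * φ v := by
      intro j
      have h3 : Y (v j) = μ j • v j + (Y - algebraMap K (End K R) (μ j)) (v j) := by
        rw [LinearMap.sub_apply, Module.algebraMap_end_apply]
        abel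
      have h5 : φ (update v j ((Y - algebraMap K (End K R) (μ j)) (v j))) = 0 := by
        refine ih (update n j (n j - 1)) _ ?_ fun i => ?_
        swap
        · by_cases hi : i = j
          · subst hi
            rw [update_self, update_self]
            have h4 := hv i
            obtain ⟨m, hm⟩ : ∃ m, n i = m + 1 := ⟨n i - 1, by have := h0 i; omega⟩
            rw [hm] at h4 ⊢
            rw [pow_succ, Module.End.mul_apply] at h4
            simpa using h4
          · rw [update_of_ne hi, update_of_ne hi]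
            exact hv i
        have h4 : ∑ i, update n j (n j - 1) i + 1 = ∑ i, n i := by
          rw [← Finset.add_sum_erase _ _ (Finset.mem_univ j), update_self,
            ← Finset.add_sum_erase _ _ (Finset.mem_univ j)]
          rw [Finset.sum_congr rfl fun i hi => update_of_ne (Finset.ne_of_mem_erase hi) _ _]
          have := h0 j
          omega
        omega
      rw [h3, MultilinearMap.map_update_add, MultilinearMap.map_update_smul, update_eq_self,
        smul_eq_mul, h5, add_zero]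
    rw [Finset.sum_congr rfl fun j _ => h2 j, ← Finset.sum_mul] at h1
    exact (mul_eq_zero.1 h1).resolve_left hμ

open scoped Classical in
/-- **Replicas.** -/
theorem replica {Y : End K R} (hY : Y ∈ Lie ρ χ) (f : K →+ K) {Z : End K R}
    (hZ : ∀ β, ∀ x ∈ Y.maxGenEigenspace β, Z x = f β • x) : Z ∈ Lie ρ χ := by
  apply mem_Lie_of
  intro S _ _ φ k hφ v
  rw [zero_mul]
  have hYφ := Lie_mul hY hφ
  let b : ∀ β : K, Basis (Fin (finrank K (Y.maxGenEigenspace β))) K (Y.maxGenEigenspace β) :=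
    fun β => Module.finBasis K _
  let B := (gen_internal Y).collectedBasis b
  have hB : ∀ i, B i ∈ Y.maxGenEigenspace i.1 := (gen_internal Y).collectedBasis_mem b
  let D : MultilinearMap K (fun _ : S => R) K :=
    ∑ j, φ.compLinearMap fun i => if i = j then Z else LinearMap.id
  have hD : ∀ v, D v = ∑ j, φ (update v j (Z (v j))) := by
    intro v
    rw [_root_.sum_apply]
    refine sum_congr rfl fun j _ => ?_
    rw [MultilinearMap.compLinearMap_apply]
    congr 1
    funext i
    by_cases hi : i = j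
    · subst hi
      rw [if_pos rfl, update_self]
    · rw [if_neg hi, update_of_ne hi, LinearMap.id_apply]
  have key : D = 0 := by
    refine Module.Basis.ext_multilinear (fun _ => B) fun r => ?_
    rw [hD, zero_apply]
    have h3 : ∀ j, φ (update (fun j => B (r j)) j (Z (B (r j)))) =
        f (r j).1 * φ fun j => B (r j) := by
      intro j
      rw [hZ _ _ (hB (r j)), MultilinearMap.map_update_smul, update_eq_self, smul_eq_mul]
    rw [sum_congr rfl fun j _ => h3 j, ← sum_mul, ← map_sum]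
    by_cases h0 : ∑ j, (r j).1 = 0
    · rw [h0, map_zero, zero_mul]
    · have h1 : ∀ j, ∃ n : ℕ, ((Y - algebraMap K (End K R) (r j).1) ^ n) (B (r j)) = 0 :=
        fun j => mem_gen.1 (hB (r j))
      choose n hn using h1
      rw [vanish hYφ (fun j => (r j).1) h0 _ n (fun j => B (r j)) rfl hn, mul_zero]
  rw [← hD, key, zero_apply]

end slope

end Pool.Agent.K1H13.D4
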