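import Mathlib
import Pool.Agent.K1H13.D4.Base

/-!
# The trace form on the Lie algebra is nondegenerate
-/

set_option linter.unusedSectionVars false

namespace Pool.Agent.K1H13.D4

open Module Finset Function Pool.Agent.TH125.Gal Pool.Agent.TH118.SG

attribute [local instance 100] LieRing.ofAssociativeRing

section engel

variable {K : Type} [Field K] {V : Type} [AddCommGroup V] [Module K V] [FiniteDimensional K V]

/-- Engel's theorem. -/
theorem engel (L : Submodule K (End K V)) (hbr : ∀ Y ∈ L, ∀ Z ∈ L, Y * Z - Z * Y ∈ L)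
    (hnil : ∀ Y ∈ L, IsNilpotent Y) {W : Submodule K V} (hW : ∀ Y ∈ L, ∀ w ∈ W, Y w ∈ W)
    (hW0 : W ≠ ⊥) : ∃ w ∈ W, w ≠ 0 ∧ ∀ Y ∈ L, Y w = 0 := by
  let 𝔏 : LieSubalgebra K (End K V) := { L with lie_mem' := fun {x y} hx hy => hbr x hx y hy }
  let W' : LieSubmodule K 𝔏 V := { W with lie_mem := fun {x m} hm => hW x.1 x.2 m hm }
  have hnt : Nontrivial W' := Submodule.nontrivial_iff_ne_bot.2 hW0
  have hn : LieModule.IsNilpotent 𝔏 W' := by
    rw [LieModule.isNilpotent_iff_forall' (R := K)]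
    intro x
    obtain ⟨n, hn⟩ := hnil x.1 x.2
    refine ⟨n, ?_⟩
    have h1 : ∀ m : ℕ, ∀ w : W', (((LieModule.toEnd K 𝔏 W' x) ^ m) w : V) =
        ((x : End K V) ^ m) (w : V) := by
      intro m
      induction m with
      | zero => intro w; rfl
      | succ m ih =>
        intro w
        rw [pow_succ, pow_succ, Module.End.mul_apply, Module.End.mul_apply, ih]
        rfl
    apply LinearMap.ext
    intro w
    apply Subtype.ext
    rw [h1, hn]
    rfl
  have hnt2 := LieModule.nontrivial_max_triv_of_isNilpotent K 𝔏 W'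
  obtain ⟨u, hu⟩ := exists_ne (0 : LieModule.maxTrivSubmodule K 𝔏 W')
  refine ⟨((u : W') : V), (u : W').2, fun h => hu (Subtype.ext (Subtype.ext h)), fun Y hY => ?_⟩
  have h2 := u.2
  rw [LieModule.mem_maxTrivSubmodule] at h2
  exact congrArg Subtype.val (h2 ⟨Y, hY⟩)

variable {Γ : Type} [Group Γ]

/-- Every stable subspace has a stable complement. -/
def SS (ρ : Γ →* (V →ₗ[K] V)) : Prop :=
  ∀ U : Submodule K V, (∀ g, ∀ x ∈ U, ρ g x ∈ U) →
    ∃ U' : Submodule K V, (∀ g, ∀ x ∈ U', ρ g x ∈ U') ∧ IsCompl U U'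

theorem exists_proj {ρ : Γ →* (V →ₗ[K] V)} {U U' : Submodule K V}
    (hU : ∀ g, ∀ x ∈ U, ρ g x ∈ U) (hU' : ∀ g, ∀ x ∈ U', ρ g x ∈ U') (hc : IsCompl U U') :
    ∃ p : End K V, (∀ g x, p (ρ g x) = ρ g (p x)) ∧ (∀ x, p x ∈ U') ∧ (∀ x ∈ U', p x = x) := by
  let p : End K V := U'.subtype ∘ₗ Submodule.linearProjOfIsCompl U' U hc.symm
  have h1 : ∀ x ∈ U', p x = x := by
    intro x hx
    exact congrArg Subtype.val (Submodule.linearProjOfIsCompl_apply_left hc.symm ⟨x, hx⟩)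
  have h2 : ∀ x ∈ U, p x = 0 := by
    intro x hx
    exact congrArg Subtype.val (Submodule.linearProjOfIsCompl_apply_right hc.symm ⟨x, hx⟩)
  refine ⟨p, fun g x => ?_, fun x => (Submodule.linearProjOfIsCompl U' U hc.symm x).2, h1⟩
  have hx : x ∈ U ⊔ U' := by
    rw [hc.sup_eq_top]
    exact Submodule.mem_top
  obtain ⟨a, ha, b, hb, rfl⟩ := Submodule.mem_sup.1 hx
  rw [map_add, map_add, map_add, h2 _ (hU g a ha), h1 _ (hU' g b hb), h2 a ha, h1 b hb, zero_add,
    zero_add]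

theorem nil_zero {ρ : Γ →* (V →ₗ[K] V)} (hss : SS ρ) (L : Submodule K (End K V))
    (hbr : ∀ Y ∈ L, ∀ Z ∈ L, Y * Z - Z * Y ∈ L) (hnil : ∀ Y ∈ L, IsNilpotent Y)
    (hconj : ∀ g, ∀ Y ∈ L, ρ g * Y * ρ g⁻¹ ∈ L)
    (hcomm : ∀ p : End K V, (∀ g x, p (ρ g x) = ρ g (p x)) → ∀ Y ∈ L, ∀ x, p (Y x) = Y (p x)) :
    ∀ Y ∈ L, Y = 0 := by
  let U : Submodule K V :=
    { carrier := {x | ∀ Y ∈ L, Y x = 0}
      zero_mem' := fun Y _ => map_zero _
      add_mem' := fun {u v} hu hv Y hY => by rw [map_add, hu Y hY, hv Y hY, add_zero]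
      smul_mem' := fun c u hu Y hY => by rw [map_smul, hu Y hY, smul_zero] }
  have hU : ∀ g, ∀ x ∈ U, ρ g x ∈ U := by
    intro g x hx Y hY
    have h1 := hx _ (hconj g⁻¹ Y hY)
    rw [inv_inv, Module.End.mul_apply, Module.End.mul_apply] at h1
    have h2 := congrArg (ρ g) h1
    rwa [map_zero, rr] at h2
  obtain ⟨U', hU', hc⟩ := hss U hU
  obtain ⟨p, hp, hpU, hpx⟩ := exists_proj hU hU' hc
  have hst : ∀ Y ∈ L, ∀ w ∈ U', Y w ∈ U' := by
    intro Y hY w hw
    have h1 := hcomm p hp Y hY w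
    rw [hpx w hw] at h1
    rw [← h1]
    exact hpU _
  have hbot : U' = ⊥ := by
    by_contra hne
    obtain ⟨w, hw, hw0, hk⟩ := engel L hbr hnil hst hne
    apply hw0
    have h1 : w ∈ U ⊓ U' := ⟨hk, hw⟩
    rw [hc.inf_eq_bot, Submodule.mem_bot] at h1
    exact h1
  intro Y hY
  apply LinearMap.ext
  intro x
  have hx : x ∈ U ⊔ U' := by
    rw [hc.sup_eq_top]
    exact Submodule.mem_top
  rw [hbot, sup_bot_eq] at hx
  exact hx Y hY

end engel

section trace

variable {K : Type} [Field K] [CharZero K] [IsAlgClosed K] {R : Type} [AddCommGroup R]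
  [Module K R] [FiniteDimensional K R]

/-- The nilpotent part. -/
theorem nil_part {Y Ys : End K R} (hYs : ∀ β, ∀ x ∈ Y.maxGenEigenspace β, Ys x = β • x) :
    IsNilpotent (Y - Ys) := by
  have h1 : ∀ (m : ℕ) (β : K), ∀ x ∈ Y.maxGenEigenspace β, ((Y - Ys) ^ m) x =
      ((Y - algebraMap K (End K R) β) ^ m) x := by
    intro m
    induction m with
    | zero => intro β x _; rfl
    | succ m ih =>
      intro β x hx
      have h2 : (Y - Ys) x = (Y - algebraMap K (End K R) β) x := by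
        rw [LinearMap.sub_apply, LinearMap.sub_apply, hYs β x hx, Module.algebraMap_end_apply]
      have h3 : (Y - algebraMap K (End K R) β) x ∈ Y.maxGenEigenspace β := by
        obtain ⟨n, hn⟩ := mem_gen.1 hx
        refine mem_gen.2 ⟨n, ?_⟩
        rw [← Module.End.mul_apply, ← pow_succ, pow_succ', Module.End.mul_apply, hn, map_zero]
      rw [pow_succ, pow_succ, Module.End.mul_apply, Module.End.mul_apply, h2, ih β _ h3]
  refine ⟨finrank K R, op_ext Y fun β x hx => ?_⟩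
  rw [h1 _ β x hx]
  rw [Module.End.maxGenEigenspace_eq_genEigenspace_finrank] at hx
  have h2 := (Module.End.mem_genEigenspace_nat).1 hx
  exact h2

/-- Operators whose trace form with all replicas vanishes are nilpotent. -/
theorem nil_of_trace {Y : End K R} (h : ∀ (f : K →+ K) (Z : End K R),
    (∀ β, ∀ x ∈ Y.maxGenEigenspace β, Z x = f β • x) → LinearMap.trace K R (Y * Z) = 0) :
    IsNilpotent Y := by
  classical
  obtain ⟨Ys, hYs⟩ := exists_op Y (fun β => β)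
  have hN := nil_part hYs
  let b : ∀ β : K, Basis (Fin (finrank K (Y.maxGenEigenspace β))) K (Y.maxGenEigenspace β) :=
    fun β => Module.finBasis K _
  let B := (gen_internal Y).collectedBasis b
  have hB : ∀ i, B i ∈ Y.maxGenEigenspace i.1 := (gen_internal Y).collectedBasis_mem b
  have hfin : Fintype ((β : K) × Fin (finrank K (Y.maxGenEigenspace β))) :=
    FiniteDimensional.fintypeBasisIndex B
  have key : ∀ ψ : K →ₗ[ℚ] ℚ, ∀ i : (β : K) × Fin (finrank K (Y.maxGenEigenspace β)),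
      ψ i.1 = 0 := by
    intro ψ
    let f : K →+ K := (algebraMap ℚ K).toAddMonoidHom.comp ψ.toAddMonoidHom
    have hf : ∀ x, f x = ((ψ x : ℚ) : K) := fun x => rfl
    obtain ⟨Z, hZ⟩ := exists_op Y f
    have h1 := h f Z hZ
    have hmap : ∀ β, ∀ x ∈ Y.maxGenEigenspace β, (Y - Ys) x ∈ Y.maxGenEigenspace β := by
      intro β x hx
      have h2 : (Y - Ys) x = (Y - algebraMap K (End K R) β) x := by
        rw [LinearMap.sub_apply, LinearMap.sub_apply, hYs β x hx, Module.algebraMap_end_apply]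
      rw [h2]
      obtain ⟨n, hn⟩ := mem_gen.1 hx
      refine mem_gen.2 ⟨n, ?_⟩
      rw [← Module.End.mul_apply, ← pow_succ, pow_succ', Module.End.mul_apply, hn, map_zero]
    have hcomm : Commute (Y - Ys) Z := by
      refine op_ext Y fun β x hx => ?_
      rw [Module.End.mul_apply, Module.End.mul_apply, hZ β x hx, map_smul,
        hZ β _ (hmap β x hx)]
    have h2 : LinearMap.trace K R ((Y - Ys) * Z) = 0 := by
      have h3 : IsNilpotent ((Y - Ys) * Z) := hcomm.isNilpotent_mul_right hN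
      exact (LinearMap.isNilpotent_trace_of_isNilpotent h3).eq_zero
    have h3 : LinearMap.trace K R (Ys * Z) = 0 := by
      have h4 : Y * Z = (Y - Ys) * Z + Ys * Z := by rw [sub_mul, sub_add_cancel]
      rwa [h4, map_add, h2, zero_add] at h1
    have h4 : LinearMap.trace K R (Ys * Z) = ∑ i : (β : K) × Fin (finrank K
        (Y.maxGenEigenspace β)), i.1 * f i.1 := by
      rw [LinearMap.trace_eq_matrix_trace K B, Matrix.trace]
      refine Finset.sum_congr rfl fun i _ => ?_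
      rw [Matrix.diag_apply, LinearMap.toMatrix_apply, Module.End.mul_apply, hZ _ _ (hB i),
        map_smul, hYs _ _ (hB i), smul_smul, map_smul, Module.Basis.repr_self]
      simp [mul_comm]
    rw [h3] at h4
    have h5 : ∑ i : (β : K) × Fin (finrank K (Y.maxGenEigenspace β)), ψ i.1 * ψ i.1 = 0 := by
      have h6 := congrArg ψ h4
      rw [map_zero, map_sum] at h6
      rw [h6]
      refine Finset.sum_congr rfl fun i _ => ?_
      rw [hf, mul_comm i.1, ← Rat.smul_def, map_smul, smul_eq_mul]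
    intro i
    have h6 := (Finset.sum_eq_zero_iff_of_nonneg fun i _ => mul_self_nonneg (ψ i.1)).1 h5 i
      (Finset.mem_univ _)
    exact mul_self_eq_zero.1 h6
  have h0 : ∀ i : (β : K) × Fin (finrank K (Y.maxGenEigenspace β)), i.1 = 0 := fun i =>
    (Module.forall_dual_apply_eq_zero_iff ℚ i.1).1 fun ψ => key ψ i
  have hYs0 : Ys = 0 := by
    refine B.ext fun i => ?_
    rw [hYs _ _ (hB i), h0 i, zero_smul, LinearMap.zero_apply]
  rwa [hYs0, sub_zero] at hN

variable {Γ : Type} [Group Γ] {ρ : Γ →* (R →ₗ[K] R)} {χ : Γ →* Kˣ}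

/-- The radical of the trace form. -/
def rad (ρ : Γ →* (R →ₗ[K] R)) (χ : Γ →* Kˣ) : Submodule K (End K R) where
  carrier := {y | y ∈ Lie ρ χ ∧ ∀ z ∈ Lie ρ χ, LinearMap.trace K R (y * z) = 0}
  zero_mem' := ⟨(Lie ρ χ).zero_mem, fun z _ => by rw [zero_mul, map_zero]⟩
  add_mem' := fun {u v} hu hv => ⟨(Lie ρ χ).add_mem hu.1 hv.1, fun z hz => by
    rw [add_mul, map_add, hu.2 z hz, hv.2 z hz, add_zero]⟩
  smul_mem' := fun c u hu => ⟨(Lie ρ χ).smul_mem c hu.1, fun z hz => by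
    rw [smul_mul_assoc, map_smul, hu.2 z hz, smul_zero]⟩

theorem rad_conj (g : Γ) {Y : End K R} (hY : Y ∈ rad ρ χ) : ρ g * Y * ρ g⁻¹ ∈ rad ρ χ := by
  refine ⟨Lie_conj hY.1 g, fun z hz => ?_⟩
  have h1 := hY.2 (ρ g⁻¹ * z * ρ g) (by
    have h2 := Lie_conj hz g⁻¹
    rwa [inv_inv] at h2)
  have h3 : ρ g * Y * ρ g⁻¹ * z = ρ g * (Y * (ρ g⁻¹ * z)) := by simp only [mul_assoc]
  rw [h3, LinearMap.trace_mul_comm, ← h1]
  simp only [mul_assoc]

theorem rad_bracket {Y Z : End K R} (hY : Y ∈ rad ρ χ) (hZ : Z ∈ rad ρ χ) :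
    Y * Z - Z * Y ∈ rad ρ χ := by
  refine ⟨Lie_bracket hY.1 hZ.1, fun w hw => ?_⟩
  have h1 := hY.2 _ (Lie_bracket hZ.1 hw)
  have h2 : LinearMap.trace K R (Z * Y * w) = LinearMap.trace K R (Y * w * Z) := by
    rw [mul_assoc, LinearMap.trace_mul_comm]
  rw [sub_mul, map_sub, h2, ← map_sub, ← h1]
  congr 1
  noncomm_ring

theorem rad_nil {Y : End K R} (hY : Y ∈ rad ρ χ) : IsNilpotent Y :=
  nil_of_trace fun f _ hZ => hY.2 _ (replica hY.1 f hZ)

/-- Components of the elements of the radical vanish. -/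
theorem rad_comp (hsep : Sep ρ χ) {V : Type} [AddCommGroup V] [Module K V]
    [FiniteDimensional K V] {ρV : Γ →* (V →ₗ[K] V)} (hss : SS ρV) {j : V →ₗ[K] R}
    {q : R →ₗ[K] V} (hqj : ∀ x, q (j x) = x) (hj : ∀ g x, j (ρV g x) = ρ g (j x))
    (hq : ∀ g x, q (ρ g x) = ρV g (q x)) {Y : End K R} (hY : Y ∈ rad ρ χ) (x : V) :
    q (Y (j x)) = 0 := by
  have hc : ∀ p : End K V, (∀ g x, p (ρV g x) = ρV g (p x)) → ∀ Y ∈ rad ρ χ, ∀ x,
      j (p (q (Y x))) = Y (j (p (q x))) := by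
    intro p hp Y hY x
    exact LieP_comm hsep (p := j ∘ₗ p ∘ₗ q) (Δ := ⊤) inferInstance (fun g _ x => by
      simp only [LinearMap.comp_apply]
      rw [hq, hp, hj]) (q := (Y, 0)) hY.1 x
  have hc1 : ∀ Y ∈ rad ρ χ, ∀ x, j (q (Y x)) = Y (j (q x)) := hc 1 fun _ _ => rfl
  let Φ : End K R →ₗ[K] End K V :=
    { toFun := fun Y => q ∘ₗ Y ∘ₗ j
      map_add' := fun Y Z => by
        apply LinearMap.ext
        intro x
        simp
      map_smul' := fun c Y => by
        apply LinearMap.ext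
        intro x
        simp }
  have hΦ : ∀ (Y : End K R) x, Φ Y x = q (Y (j x)) := fun _ _ => rfl
  have hΦm : ∀ Y ∈ rad ρ χ, ∀ Z, Φ (Y * Z) = Φ Y * Φ Z := by
    intro Y hY Z
    apply LinearMap.ext
    intro x
    rw [Module.End.mul_apply, hΦ, hΦ, hΦ, Module.End.mul_apply, ← hc1 Y hY, hqj]
  have h0 := nil_zero hss ((rad ρ χ).map Φ) ?_ ?_ ?_ ?_ (Φ Y) ⟨Y, hY, rfl⟩
  · rw [← hΦ, h0, LinearMap.zero_apply]
  · rintro _ ⟨Y, hY, rfl⟩ _ ⟨Z, hZ, rfl⟩
    refine ⟨Y * Z - Z * Y, rad_bracket hY hZ, ?_⟩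
    rw [map_sub, hΦm Y hY, hΦm Z hZ]
  · rintro _ ⟨Y, hY, rfl⟩
    obtain ⟨n, hn⟩ := rad_nil hY
    refine ⟨n + 1, ?_⟩
    have h1 : ∀ m : ℕ, Φ (Y ^ (m + 1)) = Φ Y ^ (m + 1) := by
      intro m
      induction m with
      | zero => rw [zero_add, pow_one, pow_one]
      | succ m ih => rw [pow_succ' Y, hΦm Y hY, ih, ← pow_succ']
    rw [← h1, pow_succ, hn, zero_mul, map_zero]
  · rintro g _ ⟨Y, hY, rfl⟩
    refine ⟨ρ g * Y * ρ g⁻¹, rad_conj g hY, ?_⟩
    apply LinearMap.ext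
    intro x
    rw [hΦ]
    simp only [Module.End.mul_apply]
    rw [hq, ← hj]
    rfl
  · rintro p hp _ ⟨Y, hY, rfl⟩ x
    rw [hΦ, hΦ]
    have h1 := congrArg q (hc p hp Y hY (j x))
    rwa [hqj, hqj] at h1

/-- **The trace form is nondegenerate.** -/
theorem nondeg (hsep : Sep ρ χ) {A : Type} [Fintype A] {V : A → Type} [∀ a, AddCommGroup (V a)]
    [∀ a, Module K (V a)] [∀ a, FiniteDimensional K (V a)] {ρV : ∀ a, Γ →* (V a →ₗ[K] V a)}
    (hss : ∀ a, SS (ρV a)) {j : ∀ a, V a →ₗ[K] R} {q : ∀ a, R →ₗ[K] V a}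
    (hqj : ∀ a x, q a (j a x) = x) (hsum : ∀ x, ∑ a, j a (q a x) = x)
    (hj : ∀ a g x, j a (ρV a g x) = ρ g (j a x)) (hq : ∀ a g x, q a (ρ g x) = ρV a g (q a x))
    {Y : End K R} (hY : Y ∈ Lie ρ χ) (h : ∀ Z ∈ Lie ρ χ, LinearMap.trace K R (Y * Z) = 0) :
    Y = 0 := by
  apply LinearMap.ext
  intro x
  rw [LinearMap.zero_apply]
  have hYr : Y ∈ rad ρ χ := ⟨hY, h⟩
  conv_lhs => rw [← hsum x]
  rw [map_sum]
  refine Finset.sum_eq_zero fun a _ => ?_
  have h1 : j a (q a (Y (j a (q a x)))) = Y (j a (q a (j a (q a x)))) :=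
    LieP_comm hsep (p := j a ∘ₗ q a) (Δ := ⊤) inferInstance (fun g _ x => by
      simp only [LinearMap.comp_apply]
      rw [hq, hj]) (q := (Y, 0)) hY _
  rw [hqj] at h1
  rw [← h1, rad_comp hsep (hss a) (hqj a) (hj a) (hq a) hYr, map_zero]

/-- **The projection onto the Lie algebra.** -/
theorem exists_P (hnd : ∀ Y ∈ Lie ρ χ, (∀ Z ∈ Lie ρ χ, LinearMap.trace K R (Y * Z) = 0) → Y = 0) :
    ∃ P : End K R →ₗ[K] End K R, (∀ X, P X ∈ Lie ρ χ) ∧
      (∀ X, ∀ Z ∈ Lie ρ χ, LinearMap.trace K R (P X * Z) = LinearMap.trace K R (X * Z)) ∧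
      ∀ g X, P (ρ g * X * ρ g⁻¹) = ρ g * P X * ρ g⁻¹ := by
  let G : End K R →ₗ[K] Dual K (Lie ρ χ) :=
    { toFun := fun X =>
        { toFun := fun Z => LinearMap.trace K R (X * Z)
          map_add' := fun Z Z' => by rw [Submodule.coe_add, mul_add, map_add]
          map_smul' := fun c Z => by
            rw [Submodule.coe_smul, mul_smul_comm, map_smul, RingHom.id_apply] }
      map_add' := fun X X' => by
        apply LinearMap.ext
        intro Z
        change LinearMap.trace K R ((X + X') * Z) = _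
        rw [add_mul, map_add]
        rfl
      map_smul' := fun c X => by
        apply LinearMap.ext
        intro Z
        change LinearMap.trace K R ((c • X) * Z) = _
        rw [smul_mul_assoc, map_smul]
        rfl }
  have hG : ∀ X (Z : Lie ρ χ), G X Z = LinearMap.trace K R (X * Z) := fun _ _ => rfl
  have hinj : Function.Injective (G ∘ₗ (Lie ρ χ).subtype) := by
    rw [← LinearMap.ker_eq_bot, LinearMap.ker_eq_bot']
    intro Y hY
    apply Subtype.ext
    refine hnd Y Y.2 fun Z hZ => ?_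
    have h1 := LinearMap.congr_fun hY ⟨Z, hZ⟩
    exact h1
  let e := LinearMap.linearEquivOfInjective (G ∘ₗ (Lie ρ χ).subtype) hinj
    (Subspace.dual_finrank_eq).symm
  let P : End K R →ₗ[K] End K R := (Lie ρ χ).subtype ∘ₗ e.symm.toLinearMap ∘ₗ G
  have hP : ∀ X, P X ∈ Lie ρ χ := fun X => (e.symm (G X)).2
  have hP2 : ∀ X, ∀ Z ∈ Lie ρ χ, LinearMap.trace K R (P X * Z) =
      LinearMap.trace K R (X * Z) := by
    intro X Z hZ
    have h1 : e (e.symm (G X)) = G X := e.apply_symm_apply _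
    have h2 := LinearMap.congr_fun h1 ⟨Z, hZ⟩
    exact h2
  refine ⟨P, hP, hP2, fun g X => ?_⟩
  rw [← sub_eq_zero]
  refine hnd _ (Submodule.sub_mem _ (hP _) (Lie_conj (hP X) g)) fun Z hZ => ?_
  rw [sub_mul, map_sub, hP2 _ Z hZ]
  have hZ' : ρ g⁻¹ * Z * ρ g ∈ Lie ρ χ := by
    have h2 := Lie_conj hZ g⁻¹
    rwa [inv_inv] at h2
  have h3 : ∀ W : End K R, LinearMap.trace K R (ρ g * W * ρ g⁻¹ * Z) =
      LinearMap.trace K R (W * (ρ g⁻¹ * Z * ρ g)) := by
    intro W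
    have h4 : ρ g * W * ρ g⁻¹ * Z = ρ g * (W * (ρ g⁻¹ * Z)) := by simp only [mul_assoc]
    rw [h4, LinearMap.trace_mul_comm]
    simp only [mul_assoc]
  rw [h3, h3, hP2 X _ hZ', sub_self]

end trace

end Pool.Agent.K1H13.D4
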